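import Pool.Agent.D0H38.TD.Stm
import Pool.Agent.Helper208.Rainbow.LLL
import Pool.Agent.W177.KF.Hoef

/-!
# BIS: bisection of all neighbourhoods (project TD, MP_db9399_co)
-/

set_option autoImplicit false

namespace Pool.Agent.D0H2.TD

open Finset Pool.Agent.Helper208.Rainbow Pool.Agent.W177.KF

open Classical in
/-- one tail of the signed sum -/
theorem tail {T : Type} [Fintype T] (a : T → ℝ) (D x l : ℝ) (hD : ∑ t, a t ^ 2 ≤ D)
    (hD0 : 0 < D) (hl : l = 2 * x / D) (A : Finset (T → Bool))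
    (hA : ∀ ω ∈ A, 2 * x ≤ ∑ t, sgn (ω t) * a t) (hx : 0 ≤ x) :
    (A.card : ℝ) ≤ Real.exp (-(2 * x ^ 2 / D)) * Fintype.card (T → Bool) := by
  have hl0 : 0 ≤ l := by rw [hl]; positivity
  have h1 := exp_sum_le a l
  have h2 : (A.card : ℝ) * Real.exp (l * (2 * x)) ≤
      ∑ ω : T → Bool, Real.exp (l * ∑ t, sgn (ω t) * a t) := by
    calc (A.card : ℝ) * Real.exp (l * (2 * x)) = ∑ _ω ∈ A, Real.exp (l * (2 * x)) := by
          rw [sum_const, nsmul_eq_mul]
      _ ≤ ∑ ω ∈ A, Real.exp (l * ∑ t, sgn (ω t) * a t) := by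
          refine sum_le_sum fun ω hω => ?_
          exact Real.exp_le_exp.2 (mul_le_mul_of_nonneg_left (hA ω hω) hl0)
      _ ≤ _ := sum_le_sum_of_subset_of_nonneg (subset_univ _) fun ω _ _ => (Real.exp_pos _).le
  have h3 : Real.exp (l ^ 2 / 2 * ∑ t, a t ^ 2) ≤
      Real.exp (-(2 * x ^ 2 / D)) * Real.exp (l * (2 * x)) := by
    rw [← Real.exp_add]
    apply Real.exp_le_exp.2
    have e1 : l ^ 2 / 2 * ∑ t, a t ^ 2 ≤ l ^ 2 / 2 * D :=
      mul_le_mul_of_nonneg_left hD (by positivity)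
    have e2 : -(2 * x ^ 2 / D) + l * (2 * x) = l ^ 2 / 2 * D := by
      rw [hl]
      field_simp
      ring
    rw [e2]
    exact e1
  have h4 : (A.card : ℝ) * Real.exp (l * (2 * x)) ≤
      (Real.exp (-(2 * x ^ 2 / D)) * Fintype.card (T → Bool)) * Real.exp (l * (2 * x)) := by
    calc _ ≤ _ := h2
      _ ≤ _ := h1
      _ ≤ Fintype.card (T → Bool) * (Real.exp (-(2 * x ^ 2 / D)) * Real.exp (l * (2 * x))) :=
          mul_le_mul_of_nonneg_left h3 (by positivity)
      _ = _ := by ring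
  exact le_of_mul_le_mul_right h4 (Real.exp_pos _)

/-- the numerical inequality of the symmetric local lemma -/
theorem num (n m : ℕ) (hn : 1 ≤ n) (hm : m + 1 ≤ n) :
    1 / (4 * (n : ℝ)) ≤ 1 / ((n : ℝ) + 1) * (1 - 1 / ((n : ℝ) + 1)) ^ m := by
  have hn0 : (0 : ℝ) < n := by exact_mod_cast hn
  have e1 : 1 - 1 / ((n : ℝ) + 1) = n / (n + 1) := by field_simp; ring
  rw [e1]
  have hq0 : (0 : ℝ) < n / (n + 1) := by positivity
  have hq1 : (n : ℝ) / (n + 1) ≤ 1 := by rw [div_le_one (by positivity)]; linarith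
  have h1 : ((n : ℝ) / (n + 1)) ^ (n - 1) ≤ ((n : ℝ) / (n + 1)) ^ m :=
    pow_le_pow_of_le_one hq0.le hq1 (by omega)
  have h2 : 1 / ((n : ℝ) + 1) * ((n : ℝ) / (n + 1)) ^ (n - 1) =
      1 / n * ((n : ℝ) / (n + 1)) ^ n := by
    obtain ⟨k, rfl⟩ : ∃ k, n = k + 1 := ⟨n - 1, by omega⟩
    rw [Nat.add_sub_cancel, pow_succ]
    field_simp
  have h3 : (((n : ℝ) + 1) / n) ^ n ≤ Real.exp 1 := by
    have e2 : ((n : ℝ) + 1) / n = 1 / n + 1 := by field_simp; ring
    rw [e2]
    calc (1 / (n : ℝ) + 1) ^ n ≤ Real.exp (1 / n) ^ n :=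
          pow_le_pow_left₀ (by positivity) (Real.add_one_le_exp _) n
      _ = Real.exp 1 := by
          rw [← Real.exp_nat_mul]
          congr 1
          field_simp
  have h4 : (1 : ℝ) / 4 ≤ ((n : ℝ) / (n + 1)) ^ n := by
    have e3 : ((n : ℝ) / (n + 1)) ^ n = ((((n : ℝ) + 1) / n) ^ n)⁻¹ := by
      rw [← inv_pow, inv_div]
    rw [e3, one_div]
    apply inv_anti₀ (by positivity)
    have := Real.exp_one_lt_d9
    linarith
  calc 1 / (4 * (n : ℝ)) = 1 / n * (1 / 4) := by field_simp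
    _ ≤ 1 / n * ((n : ℝ) / (n + 1)) ^ n := mul_le_mul_of_nonneg_left h4 (by positivity)
    _ = _ := h2.symm
    _ ≤ _ := mul_le_mul_of_nonneg_left h1 (by positivity)

open Classical in
theorem t_BIS : Pool.Agent.D0H38.TD.S_BIS := by
  intro V _ G D hD hdeg x hx hlog
  have hDR : (1 : ℝ) ≤ D := by exact_mod_cast hD
  have hD0 : (0 : ℝ) < D := by linarith
  let N : V → Finset V := fun v => univ.filter (fun w => G.Adj v w)
  have hNs : ∀ v, ((N v : Finset V) : Set V) = G.neighborSet v := by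
    intro v; ext w; simp [N]
  have hNc : ∀ v, (G.neighborSet v).ncard = (N v).card := by
    intro v; rw [← hNs, Set.ncard_coe_finset]
  have hN : ∀ v, (N v).card ≤ D := fun v => by rw [← hNc]; exact hdeg v
  have hN' : ∀ w, (univ.filter (fun v => w ∈ N v)).card ≤ D := by
    intro w
    have : univ.filter (fun v => w ∈ N v) = N w := by
      ext v; simp [N, G.adj_comm]
    rw [this]; exact hN w
  let a : V → V → ℝ := fun v w => if w ∈ N v then 1 else 0
  let S : V → (V → Bool) → ℝ := fun v ω => ∑ w, sgn (ω w) * a v w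
  have hS : ∀ v ω, S v ω = ∑ w ∈ N v, sgn (ω w) := by
    intro v ω
    simp only [S, a, mul_ite, mul_one, mul_zero]
    rw [← sum_filter]
    congr 1
    ext w
    simp
  have ha2 : ∀ v, ∑ w, a v w ^ 2 ≤ (D : ℝ) := by
    intro v
    have e1 : ∑ w, a v w ^ 2 = ((N v).card : ℝ) := by
      simp only [a, ite_pow, one_pow, zero_pow two_ne_zero]
      rw [← sum_filter, sum_const, nsmul_eq_mul, mul_one]
      congr 2
      ext w
      simp
    rw [e1]
    exact_mod_cast hN v
  let B : V → Finset (V → Bool) := fun v => univ.filter (fun ω => 2 * x < |S v ω|)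
  have hdep : ∀ v, DepOn (B v) (N v) := by
    intro v ω ω' h
    simp only [B, mem_filter, mem_univ, true_and]
    rw [hS, hS, sum_congr rfl fun w hw => by rw [h w hw]]
  have hexp : Real.exp (-(2 * x ^ 2 / D)) ≤ 1 / (8 * (D : ℝ) ^ 2) := by
    have h8 : (0 : ℝ) < 8 * (D : ℝ) ^ 2 := by positivity
    have h1 : Real.log (8 * (D : ℝ) ^ 2) ≤ 2 * x ^ 2 / D := by
      rw [le_div_iff₀ hD0]
      linarith
    calc Real.exp (-(2 * x ^ 2 / D)) ≤ Real.exp (-Real.log (8 * (D : ℝ) ^ 2)) :=
          Real.exp_le_exp.2 (by linarith)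
      _ = 1 / (8 * (D : ℝ) ^ 2) := by rw [Real.exp_neg, Real.exp_log h8, one_div]
  have hB : ∀ v, ((B v).card : ℝ) ≤ 1 / (4 * ((D ^ 2 : ℕ) : ℝ)) * Fintype.card (V → Bool) := by
    intro v
    let B1 : Finset (V → Bool) := univ.filter (fun ω => 2 * x < S v ω)
    let B2 : Finset (V → Bool) := univ.filter (fun ω => 2 * x < -(S v ω))
    have hsub : B v ⊆ B1 ∪ B2 := by
      intro ω hω
      simp only [B, B1, B2, mem_union, mem_filter, mem_univ, true_and] at hω ⊢
      exact lt_abs.1 hω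
    have h1 : (B1.card : ℝ) ≤ Real.exp (-(2 * x ^ 2 / D)) * Fintype.card (V → Bool) := by
      refine tail (a v) D x _ (ha2 v) hD0 rfl B1 ?_ hx
      intro ω hω
      simp only [B1, mem_filter, mem_univ, true_and] at hω
      exact hω.le
    have h2 : (B2.card : ℝ) ≤ Real.exp (-(2 * x ^ 2 / D)) * Fintype.card (V → Bool) := by
      refine tail (fun w => -(a v w)) D x _ (by simpa using ha2 v) hD0 rfl B2 ?_ hx
      intro ω hω
      simp only [B2, mem_filter, mem_univ, true_and] at hω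
      have e : ∑ w, sgn (ω w) * -(a v w) = -(S v ω) := by
        simp only [S, mul_neg, sum_neg_distrib]
      rw [e]
      exact hω.le
    have h3 : ((B v).card : ℝ) ≤ B1.card + B2.card := by
      exact_mod_cast (card_le_card hsub).trans (card_union_le _ _)
    have h4 : Real.exp (-(2 * x ^ 2 / D)) * (Fintype.card (V → Bool) : ℝ) ≤
        1 / (8 * (D : ℝ) ^ 2) * Fintype.card (V → Bool) :=
      mul_le_mul_of_nonneg_right hexp (by positivity)
    have h5 : 1 / (4 * ((D ^ 2 : ℕ) : ℝ)) * (Fintype.card (V → Bool) : ℝ) =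
        2 * (1 / (8 * (D : ℝ) ^ 2) * Fintype.card (V → Bool)) := by
      push_cast
      field_simp
      ring
    rw [h5]
    linarith
  have hD2 : 1 ≤ D ^ 2 := Nat.one_le_pow _ _ hD
  obtain ⟨ω, hω⟩ := lll univ B N hdep (fun _ => 1 / (((D ^ 2 : ℕ) : ℝ) + 1))
    (fun _ => by positivity) (fun _ => by
      have : (0 : ℝ) < ((D ^ 2 : ℕ) : ℝ) := by exact_mod_cast hD2
      rw [div_lt_one (by linarith)]
      linarith) (by
    intro v _
    refine (hB v).trans ?_
    apply mul_le_mul_of_nonneg_right _ (by positivity)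
    rw [prod_const]
    set M := univ.filter (fun j => j ≠ v ∧ ¬ Disjoint (N v) (N j)) with hM
    rcases Nat.eq_zero_or_pos M.card with h0 | h0
    · rw [h0]
      exact num (D ^ 2) 0 hD2 (by omega)
    · refine num (D ^ 2) M.card hD2 ?_
      -- `v` itself and the members of `M` meet `N v`
      have hne : (N v).Nonempty := by
        obtain ⟨j, hj⟩ := card_pos.1 h0
        rw [hM, mem_filter, not_disjoint_iff] at hj
        obtain ⟨-, -, k, hk, -⟩ := hj
        exact ⟨k, hk⟩
      have hsub : insert v M ⊆ (N v).biUnion (fun k => univ.filter (fun j => k ∈ N j)) := by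
        intro j hj
        rw [mem_insert] at hj
        rcases hj with rfl | hj
        · obtain ⟨k, hk⟩ := hne
          rw [mem_biUnion]
          exact ⟨k, hk, by simpa using hk⟩
        · rw [hM, mem_filter, not_disjoint_iff] at hj
          obtain ⟨-, -, k, hk1, hk2⟩ := hj
          rw [mem_biUnion]
          exact ⟨k, hk1, by simpa using hk2⟩
      have hvM : v ∉ M := by simp [hM]
      calc M.card + 1 = (insert v M).card := (card_insert_of_notMem hvM).symm
        _ ≤ ((N v).biUnion (fun k => univ.filter (fun j => k ∈ N j))).card := card_le_card hsub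
        _ ≤ ∑ k ∈ N v, (univ.filter (fun j => k ∈ N j)).card := card_biUnion_le
        _ ≤ ∑ _k ∈ N v, D := sum_le_sum fun k _ => hN' k
        _ = (N v).card * D := by rw [sum_const, smul_eq_mul]
        _ ≤ D * D := Nat.mul_le_mul_right _ (hN v)
        _ = D ^ 2 := by ring)
  refine ⟨{w | ω w = true}, fun v => ?_⟩
  have h1 := hω v (mem_univ v)
  simp only [B, mem_filter, mem_univ, true_and, not_lt] at h1
  have h2 : {w | G.Adj v w ∧ w ∈ {w | ω w = true}}.ncard =
      ((N v).filter (fun w => ω w = true)).card := by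
    rw [← Set.ncard_coe_finset]
    congr 1
    ext w
    simp [N]
  have h3 : S v ω = 2 * (((N v).filter (fun w => ω w = true)).card : ℝ) - (N v).card := by
    rw [hS]
    have e1 : ∀ w, sgn (ω w) = 2 * (if ω w = true then (1 : ℝ) else 0) - 1 := by
      intro w
      unfold sgn
      split_ifs <;> norm_num
    rw [sum_congr rfl fun w _ => e1 w, sum_sub_distrib, ← mul_sum, ← sum_filter, sum_const,
      sum_const, nsmul_eq_mul, nsmul_eq_mul, mul_one, mul_one]
  rw [h3] at h1
  rw [h2, hNc]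
  rw [abs_le] at h1 ⊢
  constructor <;> linarith [h1.1, h1.2]

end Pool.Agent.D0H2.TD
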