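import Mathlib
import Pool.Agent.D0H38.TD.Stm3
import Pool.Agent.D0H2.TD.Dec

/-!
# Project TD, modules DEC2 and DEC3 (helper2)
-/

set_option autoImplicit false

namespace Pool.Agent.D0H2.TD.Dec2

open Pool.Agent.D0H38.TD Finset

theorem t_DEC2 : S_DEC2 := by
  intro V _ _ c s κ L hs hev
  let C : Fin c → Finset V := fun i => L.filter fun v => κ v = i
  have h0 : ∀ i : Fin c, ∃ Q : Finset (Finset V),
      (∀ P ∈ Q, P ⊆ C i ∧ P.card ≤ s ∧ Even (L.card + P.card)) ∧
      (∀ P ∈ Q, ∀ P' ∈ Q, P ≠ P' → Disjoint P P') ∧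
      Q.card ≤ (C i).card / s + 1 ∧ (C i \ Q.biUnion id).card ≤ 1 := fun i =>
    Pool.Agent.D0H2.TD.Dec.one L.card s hs hev _ (C i) rfl
  choose Q hQ1 hQ2 hQ3 hQ4 using h0
  have hCdis : ∀ i j, i ≠ j → Disjoint (C i) (C j) := fun i j hij =>
    disjoint_left.mpr fun x hx hx' =>
      hij ((mem_filter.mp hx).2.symm.trans (mem_filter.mp hx').2)
  have hsum : ∑ i, (C i).card = L.card :=
    (card_eq_sum_card_fiberwise (f := κ) (s := L) (t := univ) (fun _ _ => by simp)).symm
  refine ⟨univ.biUnion Q, ?_, ?_, ?_, ?_⟩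
  · intro P hP
    obtain ⟨i, -, hP⟩ := mem_biUnion.mp hP
    obtain ⟨h1, h2, h3⟩ := hQ1 i P hP
    refine ⟨h1.trans (filter_subset _ _), h2, h3, fun u hu v hv => ?_⟩
    rw [(mem_filter.mp (h1 hu)).2, (mem_filter.mp (h1 hv)).2]
  · intro P hP P' hP' hne
    obtain ⟨i, -, hP⟩ := mem_biUnion.mp hP
    obtain ⟨j, -, hP'⟩ := mem_biUnion.mp hP'
    by_cases hij : i = j
    · subst hij
      exact hQ2 i P hP P' hP' hne
    · exact disjoint_of_subset_left (hQ1 i P hP).1
        (disjoint_of_subset_right (hQ1 j P' hP').1 (hCdis i j hij))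
  · have h1 : (univ.biUnion Q).card ≤ ∑ i, ((C i).card / s + 1) :=
      card_biUnion_le.trans (sum_le_sum fun i _ => hQ3 i)
    have h2 : ∑ i, (C i).card / s ≤ L.card / s := by
      rw [Nat.le_div_iff_mul_le (by omega), sum_mul, ← hsum]
      exact sum_le_sum fun i _ => Nat.div_mul_le_self _ _
    rw [sum_add_distrib] at h1
    simp only [sum_const, card_univ, Fintype.card_fin, smul_eq_mul, mul_one] at h1
    omega
  · have hsub : {v | v ∈ L ∧ ∀ P ∈ univ.biUnion Q, v ∉ P} ⊆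
        (↑(univ.biUnion fun i => C i \ (Q i).biUnion id) : Set V) := by
      rintro v ⟨hvL, hv⟩
      rw [mem_coe, mem_biUnion]
      refine ⟨κ v, mem_univ _, mem_sdiff.mpr ⟨mem_filter.mpr ⟨hvL, rfl⟩, fun h => ?_⟩⟩
      obtain ⟨P, hP, hvP⟩ := mem_biUnion.mp h
      exact hv P (mem_biUnion.mpr ⟨_, mem_univ _, hP⟩) hvP
    refine (Set.ncard_le_ncard hsub (finite_toSet _)).trans ?_
    rw [Set.ncard_coe_finset]
    refine card_biUnion_le.trans ((sum_le_sum fun i _ => hQ4 i).trans ?_)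
    simp

/-- One class, without parity, everything covered. -/
theorem one' {V : Type} [DecidableEq V] (s : ℕ) (hs : 1 ≤ s) : ∀ (k : ℕ) (C : Finset V),
    C.card = k →
    ∃ Q : Finset (Finset V),
      (∀ P ∈ Q, P ⊆ C ∧ P.card ≤ s) ∧
      (∀ P ∈ Q, ∀ P' ∈ Q, P ≠ P' → Disjoint P P') ∧
      Q.card ≤ C.card / s + 1 ∧ ∀ v ∈ C, ∃ P ∈ Q, v ∈ P := by
  intro k
  induction k using Nat.strong_induction_on with
  | _ k ih =>
    intro C hC
    by_cases hsC : s ≤ C.card
    · obtain ⟨D, hDC, hD⟩ := exists_subset_card_eq hsC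
      have hcard : (C \ D).card = C.card - s := by rw [card_sdiff_of_subset hDC, hD]
      obtain ⟨Q, hQ1, hQ2, hQ3, hQ4⟩ := ih (C \ D).card (by omega) (C \ D) rfl
      refine ⟨insert D Q, ?_, ?_, ?_, ?_⟩
      · intro P hP
        rcases mem_insert.mp hP with rfl | hP
        · exact ⟨hDC, hD.le⟩
        · obtain ⟨h1, h2⟩ := hQ1 P hP
          exact ⟨h1.trans sdiff_subset, h2⟩
      · have hdis : ∀ P ∈ Q, Disjoint D P := fun P hP =>
          disjoint_left.mpr fun x hx hxP => (mem_sdiff.mp ((hQ1 P hP).1 hxP)).2 hx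
        intro P hP P' hP' hne
        rcases mem_insert.mp hP with h1 | h1
        · rcases mem_insert.mp hP' with h2 | h2
          · exact absurd (h1.trans h2.symm) hne
          · rw [h1]; exact hdis P' h2
        · rcases mem_insert.mp hP' with h2 | h2
          · rw [h2]; exact (hdis P h1).symm
          · exact hQ2 P h1 P' h2 hne
      · have h1 : (insert D Q).card ≤ Q.card + 1 := card_insert_le _ _
        have h2 : C.card / s = (C \ D).card / s + 1 := by
          rw [hcard]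
          conv_lhs => rw [show C.card = (C.card - s) + s by omega]
          exact Nat.add_div_right _ (by omega)
        omega
      · intro v hv
        by_cases hvD : v ∈ D
        · exact ⟨D, mem_insert_self _ _, hvD⟩
        · obtain ⟨P, hP, hvP⟩ := hQ4 v (mem_sdiff.mpr ⟨hv, hvD⟩)
          exact ⟨P, mem_insert_of_mem hP, hvP⟩
    · push Not at hsC
      refine ⟨{C}, ?_, ?_, ?_, fun v hv => ⟨C, mem_singleton_self _, hv⟩⟩
      · intro P hP
        rw [mem_singleton.mp hP]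
        exact ⟨Subset.refl _, hsC.le⟩
      · intro P hP P' hP' hne
        rw [mem_singleton.mp hP, mem_singleton.mp hP'] at hne
        exact absurd rfl hne
      · rw [card_singleton]; exact Nat.le_add_left 1 _

theorem t_DEC3 : S_DEC3 := by
  intro V _ _ c s κ hs
  let C : Fin c → Finset V := fun i => univ.filter fun v => κ v = i
  have h0 : ∀ i : Fin c, ∃ Q : Finset (Finset V),
      (∀ P ∈ Q, P ⊆ C i ∧ P.card ≤ s) ∧
      (∀ P ∈ Q, ∀ P' ∈ Q, P ≠ P' → Disjoint P P') ∧
      Q.card ≤ (C i).card / s + 1 ∧ ∀ v ∈ C i, ∃ P ∈ Q, v ∈ P := fun i =>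
    one' s hs _ (C i) rfl
  choose Q hQ1 hQ2 hQ3 hQ4 using h0
  have hCdis : ∀ i j, i ≠ j → Disjoint (C i) (C j) := fun i j hij =>
    disjoint_left.mpr fun x hx hx' =>
      hij ((mem_filter.mp hx).2.symm.trans (mem_filter.mp hx').2)
  have hsum : ∑ i, (C i).card = Fintype.card V := by
    rw [← card_univ]
    exact (card_eq_sum_card_fiberwise (f := κ) (s := univ) (t := univ)
      (fun _ _ => by simp)).symm
  refine ⟨univ.biUnion Q, ?_, ?_, ?_, ?_⟩
  · intro P hP
    obtain ⟨i, -, hP⟩ := mem_biUnion.mp hP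
    obtain ⟨h1, h2⟩ := hQ1 i P hP
    refine ⟨h2, fun u hu v hv => ?_⟩
    rw [(mem_filter.mp (h1 hu)).2, (mem_filter.mp (h1 hv)).2]
  · intro P hP P' hP' hne
    obtain ⟨i, -, hP⟩ := mem_biUnion.mp hP
    obtain ⟨j, -, hP'⟩ := mem_biUnion.mp hP'
    by_cases hij : i = j
    · subst hij
      exact hQ2 i P hP P' hP' hne
    · exact disjoint_of_subset_left (hQ1 i P hP).1
        (disjoint_of_subset_right (hQ1 j P' hP').1 (hCdis i j hij))
  · have h1 : (univ.biUnion Q).card ≤ ∑ i, ((C i).card / s + 1) :=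
      card_biUnion_le.trans (sum_le_sum fun i _ => hQ3 i)
    have h2 : ∑ i, (C i).card / s ≤ Fintype.card V / s := by
      rw [Nat.le_div_iff_mul_le (by omega), sum_mul, ← hsum]
      exact sum_le_sum fun i _ => Nat.div_mul_le_self _ _
    rw [sum_add_distrib] at h1
    simp only [sum_const, card_univ, Fintype.card_fin, smul_eq_mul, mul_one] at h1
    omega
  · intro v
    obtain ⟨P, hP, hvP⟩ := hQ4 (κ v) v (mem_filter.mpr ⟨mem_univ _, rfl⟩)
    exact ⟨P, mem_biUnion.mpr ⟨_, mem_univ _, hP⟩, hvP⟩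

end Pool.Agent.D0H2.TD.Dec2
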