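import Pool.Agent.D0H38.TD.Stm
import Pool.Agent.H997LT.Koenig

/-!
# EQ: one class of an equitable edge colouring of a bipartite multigraph (project TD, MP_db9399_co)
-/

set_option autoImplicit false

namespace Pool.Agent.D0H2.TD

open Finset

/-- numbering of the edges at each vertex -/
theorem exists_idx {E A : Type} [Fintype E] (s : E → A) :
    ∃ idx : E → ℕ, (∀ e, idx e < {e' | s e' = s e}.ncard) ∧
      (∀ e e', s e = s e' → idx e = idx e' → e = e') ∧
      (∀ a i, i < {e | s e = a}.ncard → ∃ e, s e = a ∧ idx e = i) := by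
  classical
  have h : ∀ a, Nonempty ({e // s e = a} ≃ Fin {e | s e = a}.ncard) := fun a =>
    ⟨Finite.equivFinOfCardEq rfl⟩
  let φ : ∀ a, ({e // s e = a} ≃ Fin {e | s e = a}.ncard) := fun a => (h a).some
  have cast : ∀ (a : A) (e : E) (he : s e = a),
      ((φ (s e) ⟨e, rfl⟩ : Fin _) : ℕ) = (φ a ⟨e, he⟩ : ℕ) := by
    rintro a e rfl; rfl
  refine ⟨fun e => (φ (s e) ⟨e, rfl⟩ : ℕ), fun e => (φ (s e) ⟨e, rfl⟩).2, ?_, ?_⟩
  · intro e e' hs hi
    simp only at hi
    rw [cast (s e') e hs] at hi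
    have h2 := (φ (s e')).injective (Fin.ext hi)
    exact congrArg Subtype.val h2
  · intro a i hi
    obtain ⟨⟨e, he⟩, h2⟩ := (φ a).surjective ⟨i, hi⟩
    refine ⟨e, he, ?_⟩
    simp only
    rw [cast a e he, h2]

/-- the bounds on one side -/
theorem side {E A : Type} [Fintype E] (s : E → A) (k : ℕ) (hk : 0 < k) (idx : E → ℕ)
    (h1 : ∀ e, idx e < {e' | s e' = s e}.ncard)
    (h3 : ∀ a i, i < {e | s e = a}.ncard → ∃ e, s e = a ∧ idx e = i)
    (c : E → Fin k) (hc : ∀ e e', s e = s e' → idx e / k = idx e' / k → c e = c e' → e = e')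
    (a : A) :
    {e | s e = a}.ncard / k ≤ {e | e ∈ {e | c e = ⟨0, hk⟩} ∧ s e = a}.ncard ∧
      k * {e | e ∈ {e | c e = ⟨0, hk⟩} ∧ s e = a}.ncard ≤ {e | s e = a}.ncard + (k - 1) := by
  classical
  obtain ⟨n, hn⟩ : ∃ n, n = {e | s e = a}.ncard := ⟨_, rfl⟩
  obtain ⟨T, hT⟩ : ∃ T : Finset E, T = univ.filter (fun e => c e = ⟨0, hk⟩ ∧ s e = a) := ⟨_, rfl⟩
  have hTn : {e | e ∈ {e | c e = ⟨0, hk⟩} ∧ s e = a}.ncard = T.card := by
    rw [← Set.ncard_coe_finset]
    congr 1
    ext e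
    simp [hT]
  rw [hTn, ← hn]
  constructor
  · have hsub : range (n / k) ⊆ T.image (fun e => idx e / k) := by
      intro j hj
      rw [mem_range, Nat.lt_iff_add_one_le, Nat.le_div_iff_mul_le hk] at hj
      have hj' : j * k + k ≤ n := by rw [← Nat.succ_mul]; exact hj
      choose f hf using fun i : Fin k => h3 a (j * k + i) (by have := i.2; omega)
      have hd : ∀ i : Fin k, idx (f i) / k = j := by
        intro i
        rw [(hf i).2, Nat.add_comm, Nat.add_mul_div_right _ _ hk, Nat.div_eq_of_lt i.2, Nat.zero_add]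
      have hinj : Function.Injective (fun i => c (f i)) := by
        intro i i' h
        have h5 := hc (f i) (f i') (by rw [(hf i).1, (hf i').1]) (by rw [hd, hd]) h
        have h6 : j * k + (i : ℕ) = j * k + i' := by rw [← (hf i).2, ← (hf i').2, h5]
        exact Fin.ext (by omega)
      obtain ⟨i, hi⟩ := (Finite.injective_iff_surjective.1 hinj) ⟨0, hk⟩
      rw [mem_image]
      refine ⟨f i, ?_, hd i⟩
      rw [hT, mem_filter]
      exact ⟨mem_univ _, hi, (hf i).1⟩
    have h2 := (card_le_card hsub).trans card_image_le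
    rwa [card_range] at h2
  · have hinj : Set.InjOn (fun e => idx e / k) (T : Set E) := by
      intro e he e' he' h
      rw [mem_coe, hT, mem_filter] at he he'
      exact hc e e' (by rw [he.2.2, he'.2.2]) h (by rw [he.2.1, he'.2.1])
    have hsub : T.image (fun e => idx e / k) ⊆ range ((n + (k - 1)) / k) := by
      intro j hj
      rw [mem_image] at hj
      obtain ⟨e, he, rfl⟩ := hj
      rw [hT, mem_filter] at he
      have h4 := h1 e
      rw [he.2.2, ← hn] at h4
      rw [mem_range, Nat.lt_iff_add_one_le, Nat.le_div_iff_mul_le hk, Nat.add_mul, one_mul]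
      have h5 := Nat.div_mul_le_self (idx e) k
      omega
    have h2 : T.card ≤ (n + (k - 1)) / k := by
      rw [← card_image_of_injOn hinj]
      have h3 := card_le_card hsub
      rwa [card_range] at h3
    calc k * T.card ≤ k * ((n + (k - 1)) / k) := Nat.mul_le_mul_left _ h2
      _ ≤ n + (k - 1) := Nat.mul_div_le _ _

/-- every copy has at most `k` edges -/
theorem copy_le {E A : Type} [Fintype E] (s : E → A) (k : ℕ) (hk : 0 < k) (idx : E → ℕ)
    (h2 : ∀ e e', s e = s e' → idx e = idx e' → e = e') (N : ℕ) (hN : ∀ e, idx e / k < N)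
    (x : A × Fin N) :
    Nat.card {e // ((s e, ⟨idx e / k, hN e⟩) : A × Fin N) = x} ≤ k := by
  have h : Function.Injective (fun e : {e // ((s e, ⟨idx e / k, hN e⟩) : A × Fin N) = x} =>
      (⟨idx e.1 % k, Nat.mod_lt _ hk⟩ : Fin k)) := by
    rintro ⟨e, he⟩ ⟨e', he'⟩ h
    simp only [Fin.mk.injEq] at h
    have h3 := he.trans he'.symm
    rw [Prod.mk.injEq, Fin.mk.injEq] at h3
    apply Subtype.ext
    refine h2 e e' h3.1 ?_
    rw [← Nat.div_add_mod (idx e) k, ← Nat.div_add_mod (idx e') k, h, h3.2]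
  have h4 := Nat.card_le_card_of_injective _ h
  rwa [Nat.card_eq_fintype_card (α := Fin k), Fintype.card_fin] at h4

theorem t_EQ : Pool.Agent.D0H38.TD.S_EQ := by
  intro E A B _ _ _ s t k hk
  obtain ⟨i, hi1, hi2, hi3⟩ := exists_idx s
  obtain ⟨j, hj1, hj2, hj3⟩ := exists_idx t
  have hbd : ∀ (X : Type) (u : E → X) (x : X), {e | u e = x}.ncard ≤ Fintype.card E := by
    intro X u x
    rw [← Nat.card_eq_fintype_card, ← Set.ncard_univ]
    exact Set.ncard_le_ncard (Set.subset_univ _)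
  have hiN : ∀ e, i e / k < Fintype.card E + 1 := fun e =>
    lt_of_le_of_lt (Nat.div_le_self _ _) ((hi1 e).trans_le ((hbd A s _).trans (Nat.le_succ _)))
  have hjN : ∀ e, j e / k < Fintype.card E + 1 := fun e =>
    lt_of_le_of_lt (Nat.div_le_self _ _) ((hj1 e).trans_le ((hbd B t _).trans (Nat.le_succ _)))
  obtain ⟨c, hc1, hc2⟩ := Pool.Agent.H997LT.koenig_le
    (fun e => ((s e, ⟨i e / k, hiN e⟩) : A × Fin (Fintype.card E + 1)))
    (fun e => ((t e, ⟨j e / k, hjN e⟩) : B × Fin (Fintype.card E + 1))) k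
    (copy_le s k hk i hi2 _ hiN) (copy_le t k hk j hj2 _ hjN)
  refine ⟨{e | c e = ⟨0, hk⟩}, fun a => ?_, fun b => ?_⟩
  · refine side s k hk i hi1 hi3 c (fun e e' h1 h2 h3 => hc1 e e' ?_ h3) a
    simp only [Prod.mk.injEq, Fin.mk.injEq]
    exact ⟨h1, h2⟩
  · refine side t k hk j hj1 hj3 c (fun e e' h1 h2 h3 => hc2 e e' ?_ h3) b
    simp only [Prod.mk.injEq, Fin.mk.injEq]
    exact ⟨h1, h2⟩

end Pool.Agent.D0H2.TD
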