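import Mathlib
import Pool.Agent.D0H38.TD.Stm2

/-!
# Project TD, module EXA (helper2)
-/

set_option autoImplicit false

namespace Pool.Agent.D0H2.TD.Exa

open Pool.Agent.D0H38.TD

/-- A set with more than `c (s - 1)` elements contains `s` elements of one colour. -/
theorem mono {V : Type} [DecidableEq V] (c s : ℕ) (κ : V → Fin c) (hs : 1 ≤ s) (R : Finset V)
    (h : c * (s - 1) < R.card) :
    ∃ T : Finset V, T ⊆ R ∧ T.card = s ∧ ∀ u ∈ T, ∀ v ∈ T, κ u = κ v := by
  have h1 : (Finset.univ : Finset (Fin c)).card * (s - 1) < R.card := by simpa using h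
  obtain ⟨y, -, hy⟩ := Finset.exists_lt_card_fiber_of_mul_lt_card_of_maps_to
    (s := R) (t := Finset.univ) (f := κ) (n := s - 1) (fun a _ => Finset.mem_univ _) h1
  have h2 : s ≤ (R.filter fun x => κ x = y).card := by omega
  obtain ⟨T, hT, hTc⟩ := Finset.exists_subset_card_eq h2
  refine ⟨T, hT.trans (Finset.filter_subset _ _), hTc, fun u hu v hv => ?_⟩
  rw [(Finset.mem_filter.mp (hT hu)).2, (Finset.mem_filter.mp (hT hv)).2]

theorem t_EXA : S_EXA := by
  intro V _ _ c s k κ hs hk
  induction k with
  | zero => exact ⟨fun i => i.elim0, fun i => i.elim0, fun i => i.elim0⟩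
  | succ k ih =>
    obtain ⟨I, hI, hd⟩ := ih (by nlinarith [Nat.zero_le s])
    let U : Finset V := Finset.univ.biUnion I
    have hU : U.card ≤ k * s := by
      calc U.card ≤ ∑ i : Fin k, (I i).card := Finset.card_biUnion_le
        _ = ∑ _i : Fin k, s := Finset.sum_congr rfl fun i _ => (hI i).1
        _ = k * s := by simp
    have hR : c * (s - 1) < (Finset.univ \ U).card := by
      have h1 : (Finset.univ \ U).card = Fintype.card V - U.card := by
        rw [Finset.card_sdiff_of_subset (Finset.subset_univ _), Finset.card_univ]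
      have h2 : (k + 1) * s = k * s + s := by ring
      omega
    obtain ⟨T, hT, hTc, hTm⟩ := mono c s κ hs _ hR
    have hdis : ∀ i, Disjoint (I i) T := fun i =>
      Finset.disjoint_left.mpr fun x hx hxT =>
        (Finset.mem_sdiff.mp (hT hxT)).2 (Finset.mem_biUnion.mpr ⟨i, Finset.mem_univ _, hx⟩)
    refine ⟨Fin.cons T I, fun i => ?_, fun i j hij => ?_⟩
    · refine Fin.cases ?_ (fun i => ?_) i
      · simpa using ⟨hTc, hTm⟩
      · simpa using hI i
    · revert hij
      refine Fin.cases ?_ (fun i => ?_) i <;> refine Fin.cases ?_ (fun j => ?_) j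
      · intro h; exact absurd rfl h
      · intro _; simpa using (hdis j).symm
      · intro _; simpa using hdis i
      · intro h
        simpa using hd i j fun h' => h (by rw [h'])

end Pool.Agent.D0H2.TD.Exa
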