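import Mathlib
import Pool.Agent.D0H38.TD.Stm2

/-!
# Project TD, module PERM (helper2)
-/

set_option autoImplicit false

namespace Pool.Agent.D0H2.TD.Perm

open Pool.Agent.D0H38.TD

theorem t_PERM : S_PERM := by
  intro K a b c a' b' c' hab hac hbc hab' hac' hbc'
  let σ₁ : Equiv.Perm (Fin K) := Equiv.swap a a'
  have h1a : σ₁ a = a' := Equiv.swap_apply_left a a'
  have hb1 : σ₁ b ≠ a' := fun h => hab (σ₁.injective (h1a.trans h.symm))
  have hc1 : σ₁ c ≠ a' := fun h => hac (σ₁.injective (h1a.trans h.symm))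
  have hbc1 : σ₁ b ≠ σ₁ c := fun h => hbc (σ₁.injective h)
  let σ₂ : Equiv.Perm (Fin K) := Equiv.swap (σ₁ b) b'
  have h2a : σ₂ a' = a' := Equiv.swap_apply_of_ne_of_ne hb1.symm hab'
  have h2b : σ₂ (σ₁ b) = b' := Equiv.swap_apply_left _ _
  have hc2a : σ₂ (σ₁ c) ≠ a' := fun h => hc1 (σ₂.injective (h.trans h2a.symm))
  have hc2b : σ₂ (σ₁ c) ≠ b' := fun h => hbc1 (σ₂.injective (h2b.trans h.symm))
  let σ₃ : Equiv.Perm (Fin K) := Equiv.swap (σ₂ (σ₁ c)) c'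
  have h3a : σ₃ a' = a' := Equiv.swap_apply_of_ne_of_ne hc2a.symm hac'
  have h3b : σ₃ b' = b' := Equiv.swap_apply_of_ne_of_ne hc2b.symm hbc'
  have h3c : σ₃ (σ₂ (σ₁ c)) = c' := Equiv.swap_apply_left _ _
  refine ⟨(σ₁.trans σ₂).trans σ₃, ?_, ?_, ?_⟩
  · rw [Equiv.trans_apply, Equiv.trans_apply, h1a, h2a, h3a]
  · rw [Equiv.trans_apply, Equiv.trans_apply, h2b, h3b]
  · rw [Equiv.trans_apply, Equiv.trans_apply, h3c]

end Pool.Agent.D0H2.TD.Perm
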