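import Mathlib
import Pool.Agent.D0H38.TD.Stm2

/-!
# Project TD, module PM (helper2): perfect matching from Dirac's condition
-/

set_option autoImplicit false

namespace Pool.Agent.D0H2.TD.Pm

open Pool.Agent.D0H38.TD Finset

variable {V : Type}

theorem deg_eq [DecidableEq V] (G : SimpleGraph V) [DecidableRel G.Adj] (S : Finset V) (v : V) :
    {w | w ∈ S ∧ G.Adj v w}.ncard = (S.filter fun w => G.Adj v w).card := by
  have h : {w | w ∈ S ∧ G.Adj v w} = (↑(S.filter fun w => G.Adj v w) : Set V) := by
    ext w; simp
  rw [h, Set.ncard_coe_finset]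

/-- The induction step. -/
theorem step [DecidableEq V] (G : SimpleGraph V) [DecidableRel G.Adj] (S T : Finset V) (m : V → V)
    (hdeg : ∀ v ∈ S, S.card ≤ 2 * (S.filter fun w => G.Adj v w).card)
    (hTS : T ⊆ S) (hlt : T.card + 2 ≤ S.card)
    (hm : ∀ v ∈ T, m v ∈ T ∧ G.Adj v (m v) ∧ m (m v) = v) :
    ∃ (T' : Finset V) (m' : V → V), T' ⊆ S ∧ T'.card = T.card + 2 ∧
      ∀ v ∈ T', m' v ∈ T' ∧ G.Adj v (m' v) ∧ m' (m' v) = v := by
  by_cases hadj : ∃ u ∈ S \ T, ∃ v ∈ S \ T, G.Adj u v
  · obtain ⟨u, hu, v, hv, huv⟩ := hadj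
    rw [mem_sdiff] at hu hv
    have hne : u ≠ v := huv.ne
    refine ⟨insert u (insert v T), fun x => if x = u then v else if x = v then u else m x,
      ?_, ?_, ?_⟩
    · intro x hx
      rcases mem_insert.mp hx with rfl | hx
      · exact hu.1
      · rcases mem_insert.mp hx with rfl | hx
        · exact hv.1
        · exact hTS hx
    · rw [card_insert_of_notMem, card_insert_of_notMem hv.2]
      simp [hne, hu.2]
    · intro x hx
      rcases mem_insert.mp hx with rfl | hx
      · simp [hne.symm, huv]
      · rcases mem_insert.mp hx with rfl | hx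
        · simp [hne.symm, huv.symm]
        · have hxu : x ≠ u := fun h => hu.2 (h ▸ hx)
          have hxv : x ≠ v := fun h => hv.2 (h ▸ hx)
          obtain ⟨h1, h2, h3⟩ := hm x hx
          have hmu : m x ≠ u := fun h => hu.2 (h ▸ h1)
          have hmv : m x ≠ v := fun h => hv.2 (h ▸ h1)
          simp only [hxu, hxv, hmu, hmv, if_false, h2, h3, and_true]
          exact mem_insert_of_mem (mem_insert_of_mem h1)
  · push Not at hadj
    have h2 : 2 ≤ (S \ T).card := by
      rw [card_sdiff_of_subset hTS]; omega
    obtain ⟨u, hu, v, hv, hne⟩ := one_lt_card.mp (show 1 < (S \ T).card by omega)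
    have key : ∀ x ∈ S \ T, S.card ≤ 2 * (T.filter fun w => G.Adj x w).card := by
      intro x hx
      have h1 := hdeg x (mem_sdiff.mp hx).1
      have h3 : (S.filter fun w => G.Adj x w) = T.filter fun w => G.Adj x w := by
        ext w
        simp only [mem_filter]
        constructor
        · rintro ⟨hw, ha⟩
          refine ⟨?_, ha⟩
          by_contra hwT
          exact hadj x hx w (mem_sdiff.mpr ⟨hw, hwT⟩) ha
        · rintro ⟨hw, ha⟩
          exact ⟨hTS hw, ha⟩
      rwa [h3] at h1
    have hA := key u hu
    have hB0 := key v hv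
    have hB : (T.filter fun w => G.Adj v w).card = (T.filter fun w => G.Adj v (m w)).card := by
      apply card_bij' (fun w _ => m w) (fun w _ => m w)
      · intro w hw
        rw [mem_filter] at hw ⊢
        refine ⟨(hm w hw.1).1, ?_⟩
        rw [(hm w hw.1).2.2]; exact hw.2
      · intro w hw
        rw [mem_filter] at hw ⊢
        exact ⟨(hm w hw.1).1, hw.2⟩
      · intro w hw
        exact (hm w (mem_filter.mp hw).1).2.2
      · intro w hw
        exact (hm w (mem_filter.mp hw).1).2.2
    rw [hB] at hB0
    have hint : ((T.filter fun w => G.Adj u w) ∩ (T.filter fun w => G.Adj v (m w))).Nonempty := by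
      rw [← card_pos]
      have h3 := card_union_add_card_inter (T.filter fun w => G.Adj u w)
        (T.filter fun w => G.Adj v (m w))
      have h4 : ((T.filter fun w => G.Adj u w) ∪ (T.filter fun w => G.Adj v (m w))).card
          ≤ T.card := card_le_card (union_subset (filter_subset _ _) (filter_subset _ _))
      omega
    obtain ⟨w, hw⟩ := hint
    rw [mem_inter, mem_filter, mem_filter] at hw
    obtain ⟨⟨hwT, huw⟩, -, hvw⟩ := hw
    rw [mem_sdiff] at hu hv
    obtain ⟨g1, g2, g3⟩ := hm w hwT
    have e1 : w ≠ m w := g2.ne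
    have e2 : w ≠ u := fun h => hu.2 (h ▸ hwT)
    have e3 : w ≠ v := fun h => hv.2 (h ▸ hwT)
    have e4 : m w ≠ u := fun h => hu.2 (h ▸ g1)
    have e5 : m w ≠ v := fun h => hv.2 (h ▸ g1)
    refine ⟨insert u (insert v T), fun x => if x = u then w else if x = w then u else
      if x = v then m w else if x = m w then v else m x, ?_, ?_, ?_⟩
    · intro x hx
      rcases mem_insert.mp hx with rfl | hx
      · exact hu.1
      · rcases mem_insert.mp hx with rfl | hx
        · exact hv.1
        · exact hTS hx
    · rw [card_insert_of_notMem, card_insert_of_notMem hv.2]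
      simp [hne, hu.2]
    · intro x hx
      have hT' : ∀ y ∈ T, y ∈ insert u (insert v T) := fun y hy =>
        mem_insert_of_mem (mem_insert_of_mem hy)
      rcases mem_insert.mp hx with rfl | hx
      · simp only [if_true, e2, if_false, huw, and_true, and_self]
        exact hT' w hwT
      · rcases mem_insert.mp hx with rfl | hx
        · simp only [hne.symm, if_false, e3.symm, if_true, e4, e1.symm, e5, hvw, and_true]
          exact hT' _ g1
        · have hxu : x ≠ u := fun h => hu.2 (h ▸ hx)
          have hxv : x ≠ v := fun h => hv.2 (h ▸ hx)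
          obtain ⟨h1, h2, h3⟩ := hm x hx
          have hmu : m x ≠ u := fun h => hu.2 (h ▸ h1)
          have hmv : m x ≠ v := fun h => hv.2 (h ▸ h1)
          by_cases hxw : x = w
          · subst hxw
            simp only [hxu, if_true, if_false, huw.symm, and_true]
            exact mem_insert_self _ _
          · by_cases hxm : x = m w
            · simp only [hxu, hxw, hxv, if_false, if_pos hxm, if_true, hne.symm, e3.symm]
              refine ⟨mem_insert_of_mem (mem_insert_self _ _), ?_, hxm.symm⟩
              rw [hxm]; exact hvw.symm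
            · have hmw : m x ≠ w := fun h => hxm (by rw [← h, h3])
              have hmm : m x ≠ m w := fun h => hxw (by rw [← h3, h, g3])
              simp only [hxu, hxw, hxv, hxm, if_false, hmu, hmv, hmw, hmm, h2, h3, and_true]
              exact hT' _ h1

theorem t_PM : S_PM := by
  classical
  intro V _ G S hS hdeg
  have hdeg' : ∀ v ∈ S, S.card ≤ 2 * (S.filter fun w => G.Adj v w).card := fun v hv => by
    rw [← deg_eq]; exact hdeg v hv
  have key : ∀ j : ℕ, 2 * j ≤ S.card → ∃ (T : Finset V) (m : V → V), T ⊆ S ∧ T.card = 2 * j ∧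
      ∀ v ∈ T, m v ∈ T ∧ G.Adj v (m v) ∧ m (m v) = v := by
    intro j
    induction j with
    | zero => exact fun _ => ⟨∅, id, empty_subset _, rfl, fun v hv => absurd hv (notMem_empty v)⟩
    | succ j ih =>
      intro hj
      obtain ⟨T, m, hTS, hTc, hm⟩ := ih (by omega)
      obtain ⟨T', m', h1, h2, h3⟩ := step G S T m hdeg' hTS (by omega) hm
      exact ⟨T', m', h1, by omega, h3⟩
  obtain ⟨r, hr⟩ := hS
  obtain ⟨T, m, hTS, hTc, hm⟩ := key r (by omega)
  have hT : T = S := eq_of_subset_of_card_le hTS (by omega)
  subst hT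
  exact ⟨m, hm⟩

end Pool.Agent.D0H2.TD.Pm
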