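import Mathlib
import Pool.Agent.D0H38.TD.Stm3

/-!
# Project TD, module PM2 (helper2): a matching inside `S` which covers `L`
-/

set_option autoImplicit false

namespace Pool.Agent.D0H2.TD.Pm2

open Pool.Agent.D0H38.TD Finset

variable {V : Type}

/-- The state of the induction. -/
def Good (G : SimpleGraph V) (S L T : Finset V) (m : V → V) : Prop :=
  T ⊆ S ∧ (∀ v ∈ T, m v ∈ T ∧ G.Adj v (m v) ∧ m (m v) = v) ∧ ∀ v ∈ T, v ∉ L → m v ∈ L

theorem add [DecidableEq V] {G : SimpleGraph V} {S L T : Finset V} {m : V → V} {u w : V}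
    (hG : Good G S L T m) (hu : u ∈ S) (hw : w ∈ S) (huT : u ∉ T) (hwT : w ∉ T)
    (huw : G.Adj u w) (hL : u ∈ L) :
    ∃ m', Good G S L (insert u (insert w T)) m' := by
  obtain ⟨h1, h2, h3⟩ := hG
  have hne : u ≠ w := huw.ne
  refine ⟨fun x => if x = u then w else if x = w then u else m x, ?_, ?_, ?_⟩
  · intro x hx
    rcases mem_insert.mp hx with rfl | hx
    · exact hu
    · rcases mem_insert.mp hx with rfl | hx
      · exact hw
      · exact h1 hx
  · intro x hx
    by_cases hxu : x = u
    · subst hxu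
      simp [hne.symm, huw]
    · by_cases hxw : x = w
      · subst hxw
        simp [hne.symm, huw.symm]
      · have hxT : x ∈ T := by
          rcases mem_insert.mp hx with h | hx
          · exact absurd h hxu
          · rcases mem_insert.mp hx with h | hx
            · exact absurd h hxw
            · exact hx
        obtain ⟨g1, g2, g3⟩ := h2 x hxT
        have hmu : m x ≠ u := fun h => huT (h ▸ g1)
        have hmw : m x ≠ w := fun h => hwT (h ▸ g1)
        simp only [hxu, hxw, hmu, hmw, if_false, g2, g3, and_true]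
        exact mem_insert_of_mem (mem_insert_of_mem g1)
  · intro x hx hxL
    have hxu : x ≠ u := fun h => hxL (h ▸ hL)
    by_cases hxw : x = w
    · subst hxw
      simp only [hxu, if_false, if_true]
      exact hL
    · have hxT : x ∈ T := by
        rcases mem_insert.mp hx with h | hx
        · exact absurd h hxu
        · rcases mem_insert.mp hx with h | hx
          · exact absurd h hxw
          · exact hx
      simp only [hxu, hxw, if_false]
      exact h3 x hxT hxL

theorem remove [DecidableEq V] {G : SimpleGraph V} {S L T : Finset V} {m : V → V} {x : V}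
    (hG : Good G S L T m) (hx : x ∈ T) :
    Good G S L ((T.erase x).erase (m x)) m := by
  obtain ⟨h1, h2, h3⟩ := hG
  refine ⟨fun y hy => h1 (mem_of_mem_erase (mem_of_mem_erase hy)), fun y hy => ?_,
    fun y hy => h3 y (mem_of_mem_erase (mem_of_mem_erase hy))⟩
  have hyT : y ∈ T := mem_of_mem_erase (mem_of_mem_erase hy)
  have hym : y ≠ m x := (mem_erase.mp hy).1
  have hyx : y ≠ x := (mem_erase.mp (mem_erase.mp hy).2).1
  obtain ⟨g1, g2, g3⟩ := h2 y hyT
  refine ⟨mem_erase.mpr ⟨fun h => hyx ?_, mem_erase.mpr ⟨fun h => hym ?_, g1⟩⟩, g2, g3⟩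
  · rw [← g3, h, (h2 x hx).2.2]
  · rw [← g3, h]

theorem count [DecidableEq V] {G : SimpleGraph V} [DecidableRel G.Adj] {S L T : Finset V}
    {m : V → V} {u v : V} (hG : Good G S L T m)
    (hu : S.card + 1 ≤ 2 * (S.filter fun w => G.Adj u w).card)
    (hv : S.card + 1 ≤ 2 * (S.filter fun w => G.Adj v w).card)
    (hN : ∀ w ∈ S, G.Adj u w → w ∈ T) :
    ∃ w ∈ T, G.Adj u w ∧ G.Adj v (m w) := by
  obtain ⟨h1, h2, h3⟩ := hG
  have hA : ((S.filter fun w => G.Adj u w).image m).card
      = (S.filter fun w => G.Adj u w).card := by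
    apply card_image_of_injOn
    intro a ha b hb hab
    rw [mem_coe, mem_filter] at ha hb
    rw [← (h2 a (hN a ha.1 ha.2)).2.2, hab, (h2 b (hN b hb.1 hb.2)).2.2]
  have hint : ((S.filter fun w => G.Adj u w).image m ∩ S.filter fun w => G.Adj v w).Nonempty := by
    rw [← card_pos]
    have h4 := card_union_add_card_inter ((S.filter fun w => G.Adj u w).image m)
      (S.filter fun w => G.Adj v w)
    have h5 : ((S.filter fun w => G.Adj u w).image m ∪ S.filter fun w => G.Adj v w).card
        ≤ S.card := by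
      apply card_le_card
      apply union_subset _ (filter_subset _ _)
      intro z hz
      obtain ⟨a, ha, rfl⟩ := mem_image.mp hz
      rw [mem_filter] at ha
      exact h1 (h2 a (hN a ha.1 ha.2)).1
    omega
  obtain ⟨z, hz⟩ := hint
  rw [mem_inter, mem_image, mem_filter] at hz
  obtain ⟨⟨w, hw, rfl⟩, -, hvw⟩ := hz
  rw [mem_filter] at hw
  exact ⟨w, hN w hw.1 hw.2, hw.2, hvw⟩

theorem even_card {G : SimpleGraph V} {S L T : Finset V} {m : V → V} (hG : Good G S L T m) :
    Even T.card := by
  obtain ⟨h1, h2, h3⟩ := hG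
  have h : ∑ x ∈ T, (1 : ZMod 2) = 0 := by
    refine Finset.sum_involution (fun a _ => m a) ?_ ?_ ?_ ?_
    · intro a _; decide
    · intro a ha _ h
      exact (h2 a ha).2.1.ne h.symm
    · intro a ha; exact (h2 a ha).1
    · intro a ha; exact (h2 a ha).2.2
  rw [sum_const, nsmul_one] at h
  exact (ZMod.natCast_eq_zero_iff_even).mp h

/-- The induction step. -/
theorem step [DecidableEq V] {G : SimpleGraph V} [DecidableRel G.Adj] {S L T : Finset V}
    {m : V → V} {u : V} (hLS : L ⊆ S) (hpar : Even L.card ∨ 2 * L.card ≤ S.card + 1)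
    (hdeg : ∀ v ∈ L, S.card + 1 ≤ 2 * (S.filter fun w => G.Adj v w).card)
    (hG : Good G S L T m) (huL : u ∈ L) (huT : u ∉ T) :
    ∃ (T' : Finset V) (m' : V → V), Good G S L T' m' ∧ T ∩ L ⊆ T' ∧ u ∈ T' := by
  have hG0 := hG
  obtain ⟨h1, h2, h3⟩ := hG0
  by_cases h0 : ∃ w ∈ S, w ∉ T ∧ G.Adj u w
  · obtain ⟨w, hwS, hwT, huw⟩ := h0
    obtain ⟨m', hm'⟩ := add hG (hLS huL) hwS huT hwT huw huL
    exact ⟨_, m', hm', fun z hz => mem_insert_of_mem (mem_insert_of_mem (mem_inter.mp hz).1),
      mem_insert_self _ _⟩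
  have hN : ∀ w ∈ S, G.Adj u w → w ∈ T := by
    intro w hw huw
    by_contra hwT
    exact h0 ⟨w, hw, hwT, huw⟩
  by_cases hTL : T ⊆ L
  · rcases hpar with hev | hle
    · have hev' : Even (L \ T).card := by
        rw [card_sdiff_of_subset hTL]
        exact (Nat.even_sub (card_le_card hTL)).mpr ⟨fun _ => even_card hG, fun _ => hev⟩
      have hpos : 0 < (L \ T).card := card_pos.mpr ⟨u, mem_sdiff.mpr ⟨huL, huT⟩⟩
      have h2' : 1 < (L \ T).card := by
        obtain ⟨r, hr⟩ := hev'
        omega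
      obtain ⟨v, hv, hvu⟩ := exists_mem_ne h2' u
      rw [mem_sdiff] at hv
      obtain ⟨w, hwT, huw, hvw⟩ := count hG (hdeg u huL) (hdeg v hv.1) hN
      obtain ⟨g1, g2, g3⟩ := h2 w hwT
      have k1 := remove hG hwT
      have n1 : u ∉ (T.erase w).erase (m w) := fun h =>
        huT (mem_of_mem_erase (mem_of_mem_erase h))
      have n2 : w ∉ (T.erase w).erase (m w) := fun h =>
        (mem_erase.mp (mem_erase.mp h).2).1 rfl
      obtain ⟨m₁, k2⟩ := add k1 (hLS huL) (h1 hwT) n1 n2 huw huL
      have n3 : v ∉ insert u (insert w ((T.erase w).erase (m w))) := by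
        simp only [mem_insert, mem_erase, not_or]
        exact ⟨hvu, fun h => hv.2 (h ▸ hwT), fun h => hv.2 h.2.2⟩
      have n4 : m w ∉ insert u (insert w ((T.erase w).erase (m w))) := by
        simp only [mem_insert, mem_erase, not_or]
        exact ⟨fun h => huT (h ▸ g1), g2.ne', fun h => h.1 rfl⟩
      obtain ⟨m₂, k3⟩ := add k2 (hLS hv.1) (h1 g1) n3 n4 hvw hv.1
      refine ⟨_, m₂, k3, fun z hz => ?_, ?_⟩
      · have hz' := (mem_inter.mp hz).1
        simp only [mem_insert, mem_erase]
        by_cases e1 : z = w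
        · exact Or.inr (Or.inr (Or.inr (Or.inl e1)))
        · by_cases e2 : z = m w
          · exact Or.inr (Or.inl e2)
          · exact Or.inr (Or.inr (Or.inr (Or.inr ⟨e2, e1, hz'⟩)))
      · simp
    · exfalso
      have h4 : (S.filter fun w => G.Adj u w) ⊆ L.erase u := by
        intro w hw
        rw [mem_filter] at hw
        exact mem_erase.mpr ⟨hw.2.ne', hTL (hN w hw.1 hw.2)⟩
      have h5 := card_le_card h4
      rw [card_erase_of_mem huL] at h5
      have h6 := hdeg u huL
      have h7 : 0 < L.card := card_pos.mpr ⟨u, huL⟩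
      omega
  · obtain ⟨x, hxT, hxL⟩ := not_subset.mp hTL
    obtain ⟨f1, f2, f3⟩ := h2 x hxT
    have hyL := h3 x hxT hxL
    have hux : u ≠ x := fun h => hxL (h ▸ huL)
    have huy : u ≠ m x := fun h => huT (h ▸ f1)
    by_cases hadj : G.Adj u (m x)
    · have k1 := remove hG hxT
      have n1 : u ∉ (T.erase x).erase (m x) := fun h =>
        huT (mem_of_mem_erase (mem_of_mem_erase h))
      have n2 : m x ∉ (T.erase x).erase (m x) := fun h => (mem_erase.mp h).1 rfl
      obtain ⟨m₁, k2⟩ := add k1 (hLS huL) (h1 f1) n1 n2 hadj huL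
      refine ⟨_, m₁, k2, fun z hz => ?_, mem_insert_self _ _⟩
      rw [mem_inter] at hz
      simp only [mem_insert, mem_erase]
      by_cases e1 : z = m x
      · exact Or.inr (Or.inl e1)
      · exact Or.inr (Or.inr ⟨e1, fun h => hxL (h ▸ hz.2), hz.1⟩)
    · obtain ⟨w, hwT, huw, hyw⟩ := count hG (hdeg u huL) (hdeg _ hyL) hN
      obtain ⟨g1, g2, g3⟩ := h2 w hwT
      have e1 : w ≠ m x := fun h => hadj (h ▸ huw)
      have e2 : m w ≠ m x := hyw.ne'
      have e3 : w ≠ x := fun h => e2 (by rw [h])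
      have e4 : m w ≠ x := fun h => e1 (by rw [← h, g3])
      have k1 := remove hG hwT
      have hx1 : x ∈ (T.erase w).erase (m w) :=
        mem_erase.mpr ⟨e4.symm, mem_erase.mpr ⟨e3.symm, hxT⟩⟩
      have k2 := remove k1 hx1
      have n1 : u ∉ (((T.erase w).erase (m w)).erase x).erase (m x) := fun h =>
        huT (mem_of_mem_erase (mem_of_mem_erase (mem_of_mem_erase (mem_of_mem_erase h))))
      have n2 : w ∉ (((T.erase w).erase (m w)).erase x).erase (m x) := by
        simp only [mem_erase]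
        exact fun h => h.2.2.2.1 rfl
      obtain ⟨m₁, k3⟩ := add k2 (hLS huL) (h1 hwT) n1 n2 huw huL
      have n3 : m x ∉ insert u (insert w ((((T.erase w).erase (m w)).erase x).erase (m x))) := by
        simp only [mem_insert, mem_erase, not_or]
        exact ⟨huy.symm, e1.symm, fun h => h.1 rfl⟩
      have n4 : m w ∉ insert u (insert w ((((T.erase w).erase (m w)).erase x).erase (m x))) := by
        simp only [mem_insert, mem_erase, not_or]
        exact ⟨fun h => huT (h ▸ g1), g2.ne', fun h => h.2.2.1 rfl⟩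
      obtain ⟨m₂, k4⟩ := add k3 (h1 f1) (h1 g1) n3 n4 hyw hyL
      refine ⟨_, m₂, k4, fun z hz => ?_, ?_⟩
      · rw [mem_inter] at hz
        simp only [mem_insert, mem_erase]
        by_cases d1 : z = m x
        · exact Or.inl d1
        · by_cases d2 : z = m w
          · exact Or.inr (Or.inl d2)
          · by_cases d3 : z = w
            · exact Or.inr (Or.inr (Or.inr (Or.inl d3)))
            · exact Or.inr (Or.inr (Or.inr (Or.inr
                ⟨d1, fun h => hxL (h ▸ hz.2), d2, d3, hz.1⟩)))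
      · simp

theorem t_PM2 : S_PM2 := by
  classical
  intro V _ G S L hLS hpar hdeg
  have hdeg' : ∀ v ∈ L, S.card + 1 ≤ 2 * (S.filter fun w => G.Adj v w).card := fun v hv => by
    have h : {w | w ∈ S ∧ G.Adj v w} = (↑(S.filter fun w => G.Adj v w) : Set V) := by
      ext w; simp
    have h2 := hdeg v hv
    rwa [h, Set.ncard_coe_finset] at h2
  have key : ∀ (k : ℕ) (T : Finset V) (m : V → V), Good G S L T m → (L \ T).card = k →
      ∃ (T : Finset V) (m : V → V), Good G S L T m ∧ L ⊆ T := by
    intro k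
    induction k using Nat.strong_induction_on with
    | _ k ih =>
      intro T m hG hk
      by_cases hLT : L ⊆ T
      · exact ⟨T, m, hG, hLT⟩
      · obtain ⟨u, huL, huT⟩ := not_subset.mp hLT
        obtain ⟨T', m', h1, h2, h3⟩ := step hLS hpar hdeg' hG huL huT
        refine ih (L \ T').card ?_ T' m' h1 rfl
        rw [← hk]
        apply card_lt_card
        rw [ssubset_iff_of_subset]
        · exact ⟨u, mem_sdiff.mpr ⟨huL, huT⟩, fun h => (mem_sdiff.mp h).2 h3⟩
        · intro z hz
          rw [mem_sdiff] at hz ⊢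
          exact ⟨hz.1, fun h => hz.2 (h2 (mem_inter.mpr ⟨h, hz.1⟩))⟩
  obtain ⟨T, m, ⟨h1, h2, -⟩, h4⟩ := key _ ∅ id
    ⟨empty_subset _, fun v hv => absurd hv (notMem_empty v),
      fun v hv => absurd hv (notMem_empty v)⟩ rfl
  exact ⟨T, m, h4, h1, h2⟩

end Pool.Agent.D0H2.TD.Pm2
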